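import Mathlib

/-!
# A compact perfect set containing all finite patterns that supports no Rajchman measure

For odd bases `B` the set `K B` of numbers in `[0, 1]` that have an expansion in base `B` without the
digit `0` contains a translate of every sufficiently small set with at most `(B - 3) / 2` points, and
for `x` in `K B` the numbers `B ^ j x` stay out of `(0, 1 / B)` modulo one, so that `K B` supports no
measure whose Fourier transform tends to zero. The set in the theorem is the union of `{0}` and of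
small affine copies of `K 3, K 5, K 7, ...` that converge to `0`.
-/

set_option autoImplicit false

namespace Pool.Agent.Results.MP_701998_an.NoRajchman

open Real Set Filter MeasureTheory Topology

/-- Numbers with an expansion in base `B` without the digit `0`. -/
def K (B : ℕ) : Set ℝ := Real.ofDigits '' {d : ℕ → Fin B | ∀ n, (d n : ℕ) ≠ 0}

theorem isCompact_K (B : ℕ) : IsCompact (K B) := by
  refine IsCompact.image ?_ Real.continuous_ofDigits
  refine IsClosed.isCompact ?_
  have : {d : ℕ → Fin B | ∀ n, (d n : ℕ) ≠ 0} = ⋂ n, {d : ℕ → Fin B | (d n : ℕ) ≠ 0} := by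
    ext d; simp
  rw [this]
  refine isClosed_iInter fun n => ?_
  have : {d : ℕ → Fin B | (d n : ℕ) ≠ 0} = (fun d : ℕ → Fin B => d n) ⁻¹' {z | (z : ℕ) ≠ 0} := rfl
  rw [this]
  exact (isClosed_discrete _).preimage (continuous_apply n)

theorem K_nonneg {B : ℕ} {x : ℝ} (hx : x ∈ K B) : 0 ≤ x := by
  obtain ⟨d, -, rfl⟩ := hx
  exact Real.ofDigits_nonneg d

theorem K_le_one {B : ℕ} {x : ℝ} (hx : x ∈ K B) : x ≤ 1 := by
  obtain ⟨d, -, rfl⟩ := hx
  exact Real.ofDigits_le_one d

theorem head_tail {B : ℕ} (d : ℕ → Fin B) :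
    Real.ofDigits d = ((d 0 : ℕ) : ℝ) * (B : ℝ)⁻¹ + (B : ℝ)⁻¹ * Real.ofDigits fun i => d (i + 1) := by
  have h := Real.ofDigits_eq_sum_add_ofDigits d 1
  simpa [Real.ofDigitsTerm] using h

theorem ge_of_ne_zero {B : ℕ} (hB : 0 < B) {d : ℕ → Fin B} (h0 : (d 0 : ℕ) ≠ 0) :
    (B : ℝ)⁻¹ ≤ Real.ofDigits d := by
  rw [head_tail]
  have h1 : (1 : ℝ) ≤ ((d 0 : ℕ) : ℝ) := by exact_mod_cast Nat.one_le_iff_ne_zero.2 h0
  have h2 := Real.ofDigits_nonneg fun i => d (i + 1)
  have h3 : 0 < (B : ℝ)⁻¹ := by positivity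
  nlinarith [mul_nonneg h3.le h2]

/-- `B ^ n` times a finite expansion of length `n` is a natural number. -/
theorem exists_nat {B : ℕ} (hB : 0 < B) (d : ℕ → Fin B) (n : ℕ) :
    ∃ m : ℕ, (B : ℝ) ^ n * ∑ i ∈ Finset.range n, Real.ofDigitsTerm d i = m := by
  induction n with
  | zero => exact ⟨0, by simp⟩
  | succ n ih =>
    obtain ⟨m, hm⟩ := ih
    refine ⟨B * m + d n, ?_⟩
    have hB' : (B : ℝ) ≠ 0 := by positivity
    rw [Finset.sum_range_succ, mul_add, pow_succ', mul_assoc, hm, Real.ofDigitsTerm]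
    push_cast
    rw [← pow_succ', mul_comm ((d n : ℕ) : ℝ), ← mul_assoc, mul_inv_cancel₀ (by positivity), one_mul]

theorem pow_mul_ofDigits {B : ℕ} (hB : 0 < B) (d : ℕ → Fin B) (n : ℕ) :
    ∃ m : ℕ, (B : ℝ) ^ n * Real.ofDigits d = m + Real.ofDigits fun i => d (i + n) := by
  obtain ⟨m, hm⟩ := exists_nat hB d n
  refine ⟨m, ?_⟩
  rw [Real.ofDigits_eq_sum_add_ofDigits d n, mul_add, hm, ← mul_assoc,
    mul_inv_cancel₀ (by positivity), one_mul]

/-- The key property of `K B`. -/
theorem K_arc {B : ℕ} (hB : 0 < B) {x : ℝ} (hx : x ∈ K B) (n : ℕ) :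
    ∃ m : ℕ, ∃ y ∈ Icc ((B : ℝ)⁻¹) 1, (B : ℝ) ^ n * x = m + y := by
  obtain ⟨d, hd, rfl⟩ := hx
  obtain ⟨m, hm⟩ := pow_mul_ofDigits hB d n
  exact ⟨m, Real.ofDigits fun i => d (i + n), ⟨ge_of_ne_zero hB (hd _), Real.ofDigits_le_one _⟩, hm⟩

/-- `K B` has no isolated points. -/
theorem K_acc {B : ℕ} (hB : 3 ≤ B) {x : ℝ} (hx : x ∈ K B) {ε : ℝ} (hε : 0 < ε) :
    ∃ y ∈ K B, y ≠ x ∧ |y - x| < ε := by
  obtain ⟨d, hd, rfl⟩ := hx
  have hB1 : (1 : ℝ) < B := by exact_mod_cast (by omega : 1 < B)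
  obtain ⟨n, hn⟩ := exists_pow_lt_of_lt_one hε (inv_lt_one_of_one_lt₀ hB1)
  obtain ⟨c, hc0, hc⟩ : ∃ c : Fin B, (c : ℕ) ≠ 0 ∧ (c : ℕ) ≠ (d n : ℕ) := by
    by_cases h : (d n : ℕ) = 1
    · exact ⟨⟨2, by omega⟩, by simp, by simp [h]⟩
    · exact ⟨⟨1, by omega⟩, by simp, fun h' => h h'.symm⟩
  let e : ℕ → Fin B := Function.update d n c
  refine ⟨Real.ofDigits e, ⟨e, fun k => ?_, rfl⟩, ?_, ?_⟩
  · by_cases hk : k = n
    · subst hk; simpa [e] using hc0
    · simpa [e, hk] using hd k
  · intro h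
    rw [Real.ofDigits_eq_sum_add_ofDigits e (n + 1), Real.ofDigits_eq_sum_add_ofDigits d (n + 1),
      Finset.sum_range_succ, Finset.sum_range_succ] at h
    have h1 : ∑ i ∈ Finset.range n, Real.ofDigitsTerm e i =
        ∑ i ∈ Finset.range n, Real.ofDigitsTerm d i := by
      refine Finset.sum_congr rfl fun i hi => ?_
      have : i ≠ n := (Finset.mem_range.1 hi).ne
      simp [Real.ofDigitsTerm, e, this]
    have h2 : (fun i => e (i + (n + 1))) = fun i => d (i + (n + 1)) := by
      funext i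
      have : i + (n + 1) ≠ n := by omega
      simp [e, this]
    rw [h1, h2] at h
    have h3 : Real.ofDigitsTerm e n = Real.ofDigitsTerm d n := by linarith
    simp only [Real.ofDigitsTerm, e, Function.update_self] at h3
    have h4 : ((B : ℝ) ^ (n + 1))⁻¹ ≠ 0 := by positivity
    exact hc (by exact_mod_cast mul_right_cancel₀ h4 h3)
  · have := Real.abs_ofDigits_sub_ofDigits_le (x := e) (y := d) (n := n) fun i hi => by
      simp [e, hi.ne]
    refine this.trans_lt ?_
    rw [← inv_pow]; exact hn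

theorem mem_K_of_digits {B : ℕ} [NeZero B] (hB : 1 < B) {y : ℝ} (hy : y ∈ Ico (0 : ℝ) 1)
    (h : ∀ n, ((⌊y * (B : ℝ) ^ (n + 1)⌋₊ : ℕ) : ZMod B) ≠ 0) : y ∈ K B := by
  refine ⟨Real.digits y B, fun n h0 => h n ?_, Real.ofDigits_digits hB hy⟩
  rw [ZMod.natCast_eq_zero_iff]
  simp only [Real.digits, Fin.val_ofNat] at h0
  exact Nat.dvd_of_mod_eq_zero h0

/-- `K B` contains a translate of every set of less than `(B - 1) / 2` points in `[0, 1 / B)`. -/
theorem pattern {B : ℕ} (T : Finset ℝ) (hT : ∀ t ∈ T, 0 ≤ t ∧ t < (B : ℝ)⁻¹)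
    (hB : 2 * T.card + 1 < B) : ∃ a : ℝ, ∀ t ∈ T, a + t ∈ K B := by
  classical
  have hB0 : 0 < B := by omega
  have : NeZero B := ⟨hB0.ne'⟩
  have hB1 : (0 : ℝ) < B := by positivity
  have key : ∀ n : ℕ, ∃ z : ZMod B, z ≠ -1 ∧ ∀ t ∈ T,
      z + ((⌊(B : ℝ) ^ (n + 1) * t⌋₊ : ℕ) : ZMod B) ≠ 0 ∧
      z + ((⌊(B : ℝ) ^ (n + 1) * t⌋₊ : ℕ) : ZMod B) + 1 ≠ 0 := by
    intro n
    let N : ℝ → ZMod B := fun t => ((⌊(B : ℝ) ^ (n + 1) * t⌋₊ : ℕ) : ZMod B)
    let bad : Finset (ZMod B) := insert (-1) (T.image (fun t => -N t) ∪ T.image (fun t => -N t - 1))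
    have hbad : bad.card < (Finset.univ : Finset (ZMod B)).card := by
      rw [Finset.card_univ, ZMod.card]
      calc bad.card ≤ (T.image (fun t => -N t) ∪ T.image (fun t => -N t - 1)).card + 1 :=
            Finset.card_insert_le _ _
        _ ≤ (T.image (fun t => -N t)).card + (T.image (fun t => -N t - 1)).card + 1 := by
            gcongr; exact Finset.card_union_le _ _
        _ ≤ T.card + T.card + 1 := by
            gcongr <;> exact Finset.card_image_le
        _ < B := by omega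
    obtain ⟨z, -, hz⟩ := Finset.exists_mem_notMem_of_card_lt_card hbad
    refine ⟨z, fun h => hz (by simp [bad, h]), fun t ht => ⟨fun h => hz ?_, fun h => hz ?_⟩⟩
    · have : z = -N t := eq_neg_of_add_eq_zero_left h
      simp only [bad, Finset.mem_insert, Finset.mem_union, Finset.mem_image]
      exact Or.inr (Or.inl ⟨t, ht, this.symm⟩)
    · have : z = -N t - 1 := by linear_combination h
      simp only [bad, Finset.mem_insert, Finset.mem_union, Finset.mem_image]
      exact Or.inr (Or.inr ⟨t, ht, this.symm⟩)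
  choose z hz1 hz using key
  let α : ℕ → Fin B := fun n => ⟨(z n).val, ZMod.val_lt _⟩
  have hα : ∀ n, ((α n : ℕ) : ZMod B) = z n := fun n => by simp [α]
  refine ⟨Real.ofDigits α, fun t ht => ?_⟩
  have ha0 := Real.ofDigits_nonneg α
  refine mem_K_of_digits (by omega) ⟨add_nonneg ha0 (hT t ht).1, ?_⟩ fun n => ?_
  · have h1 : (α 0 : ℕ) + 2 ≤ B := by
      have h2 : (α 0 : ℕ) < B := (α 0).2
      have h3 : (α 0 : ℕ) + 1 ≠ B := by
        intro h
        apply hz1 0
        rw [← hα 0]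
        have : (((α 0 : ℕ) + 1 : ℕ) : ZMod B) = 0 := by rw [h]; simp
        push_cast at this
        exact eq_neg_of_add_eq_zero_left this
      omega
    have h1' : ((α 0 : ℕ) : ℝ) + 2 ≤ B := by exact_mod_cast h1
    have h4 := Real.ofDigits_le_one fun i => α (i + 1)
    rw [head_tail]
    have h5 := (hT t ht).2
    have h6 : (B : ℝ) * (B : ℝ)⁻¹ = 1 := mul_inv_cancel₀ hB1.ne'
    have h7 : 0 < (B : ℝ)⁻¹ := by positivity
    nlinarith
  · obtain ⟨m, hm⟩ := exists_nat hB0 α n
    set tail := Real.ofDigits fun i => α (i + (n + 1)) with htail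
    have h1 : (B : ℝ) ^ (n + 1) * Real.ofDigits α = ((B * m + α n : ℕ) : ℝ) + tail := by
      rw [Real.ofDigits_eq_sum_add_ofDigits α (n + 1), mul_add, ← mul_assoc,
        mul_inv_cancel₀ (by positivity), one_mul, Finset.sum_range_succ, mul_add, pow_succ',
        mul_assoc, hm, Real.ofDigitsTerm, ← pow_succ', mul_comm ((α n : ℕ) : ℝ), ← mul_assoc,
        mul_inv_cancel₀ (by positivity), one_mul]
      push_cast
      ring
    have ht0 : 0 ≤ tail := Real.ofDigits_nonneg _
    have ht1 : tail ≤ 1 := Real.ofDigits_le_one _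
    set N : ℕ := ⌊(B : ℝ) ^ (n + 1) * t⌋₊ with hN
    have hNle : (N : ℝ) ≤ (B : ℝ) ^ (n + 1) * t := Nat.floor_le (by have := (hT t ht).1; positivity)
    have hNlt : (B : ℝ) ^ (n + 1) * t < N + 1 := Nat.lt_floor_add_one _
    have h2 : (Real.ofDigits α + t) * (B : ℝ) ^ (n + 1) =
        ((B * m + α n : ℕ) : ℝ) + (tail + (B : ℝ) ^ (n + 1) * t) := by
      rw [add_mul, mul_comm (Real.ofDigits α), h1]; ring
    have hpos : 0 ≤ ((B * m + α n : ℕ) : ℝ) + (tail + (B : ℝ) ^ (n + 1) * t) := by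
      have := (hT t ht).1
      positivity
    rw [h2]
    by_cases hc : tail + (B : ℝ) ^ (n + 1) * t < N + 1
    · have h3 : ⌊((B * m + α n : ℕ) : ℝ) + (tail + (B : ℝ) ^ (n + 1) * t)⌋₊ = B * m + α n + N := by
        rw [Nat.floor_eq_iff hpos]
        push_cast
        constructor <;> [linarith; linarith]
      rw [h3]
      push_cast
      rw [hα n]
      simpa using (hz n t ht).1
    · have h3 : ⌊((B * m + α n : ℕ) : ℝ) + (tail + (B : ℝ) ^ (n + 1) * t)⌋₊ =
          B * m + α n + N + 1 := by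
        rw [Nat.floor_eq_iff hpos]
        push_cast
        constructor <;> [linarith; linarith]
      rw [h3]
      push_cast
      rw [hα n]
      simpa using (hz n t ht).2

/-! ### The set -/

/-- The size of the pieces. -/
noncomputable def r (m : ℕ) : ℝ := (1 / 4) ^ m

theorem r_pos (m : ℕ) : 0 < r m := by unfold r; positivity

theorem r_succ {m n : ℕ} (h : m < n) : 4 * r n ≤ r m := by
  obtain ⟨k, rfl⟩ := Nat.exists_eq_add_of_lt h
  have h1 : r (m + k + 1) = r m * ((1 / 4) ^ k * (1 / 4)) := by unfold r; ring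
  have h2 : ((1 : ℝ) / 4) ^ k ≤ 1 := pow_le_one₀ (by norm_num) (by norm_num)
  rw [h1]
  nlinarith [r_pos m, mul_nonneg (r_pos m).le (sub_nonneg.2 h2)]

theorem r_anti {m n : ℕ} (h : m ≤ n) : r n ≤ r m :=
  pow_le_pow_of_le_one (by norm_num) (by norm_num) h

/-- The pieces. -/
def P (m : ℕ) : Set ℝ := (fun x => r m * (1 + x)) '' K (2 * m + 3)

theorem isCompact_P (m : ℕ) : IsCompact (P m) :=
  (isCompact_K _).image (by fun_prop)

theorem P_bounds {m : ℕ} {x : ℝ} (hx : x ∈ P m) : r m ≤ x ∧ x ≤ 2 * r m := by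
  obtain ⟨y, hy, rfl⟩ := hx
  have h0 := K_nonneg hy
  have h1 := K_le_one hy
  have h2 := r_pos m
  constructor <;> nlinarith

/-- The compact set. -/
def E : Set ℝ := {0} ∪ ⋃ m, P m

theorem isCompact_E : IsCompact E := by
  have hE : E = ⋂ n : ℕ, (Icc 0 (2 * r n) ∪ ⋃ m ∈ Finset.range n, P m) := by
    ext x
    simp only [E, mem_union, mem_singleton_iff, mem_iUnion, mem_iInter, mem_Icc, Finset.mem_range]
    constructor
    · rintro (rfl | ⟨m, hm⟩) n
      · exact Or.inl ⟨le_rfl, by have := r_pos n; linarith⟩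
      · by_cases h : m < n
        · exact Or.inr ⟨m, h, hm⟩
        · have h1 := P_bounds hm
          have h2 := r_anti (not_lt.1 h)
          exact Or.inl ⟨(r_pos m).le.trans h1.1, by linarith⟩
    · intro h
      by_contra hcon
      push Not at hcon
      have h1 : ∀ n, 0 ≤ x ∧ x ≤ 2 * r n := fun n => (h n).resolve_right
        fun ⟨m, _, hm⟩ => hcon.2 m hm
      have h2 : Tendsto (fun n => 2 * r n) atTop (𝓝 (2 * 0)) := by
        refine Tendsto.const_mul 2 ?_
        exact tendsto_pow_atTop_nhds_zero_of_lt_one (by norm_num) (by norm_num)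
      have h3 : x ≤ 2 * 0 := ge_of_tendsto' h2 fun n => (h1 n).2
      exact hcon.1 (le_antisymm (by linarith) (h1 0).1)
  have hcl : IsClosed E := by
    rw [hE]
    refine isClosed_iInter fun n => isClosed_Icc.union ?_
    exact (Finset.range n).finite_toSet.isClosed_biUnion fun m _ => (isCompact_P m).isClosed
  have hsub : E ⊆ Icc 0 2 := by
    rintro x (rfl | hx)
    · simp
    · obtain ⟨m, hm⟩ := mem_iUnion.1 hx
      have h1 := P_bounds hm
      have h2 := r_anti (Nat.zero_le m)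
      have h3 : r 0 = 1 := by simp [r]
      exact ⟨(r_pos m).le.trans h1.1, by linarith⟩
  exact isCompact_Icc.of_isClosed_subset hcl hsub

theorem exists_mem_K {B : ℕ} (hB : 3 ≤ B) : ∃ x, x ∈ K B :=
  ⟨_, fun _ => ⟨1, by omega⟩, fun n => by simp, rfl⟩

theorem perfect_E : Perfect E := by
  refine ⟨isCompact_E.isClosed, ?_⟩
  intro x hx
  rw [accPt_iff_nhds]
  intro U hU
  obtain ⟨ε, hε, hball⟩ := Metric.mem_nhds_iff.1 hU
  rcases hx with rfl | hx
  · have h2 : Tendsto (fun n => 2 * r n) atTop (𝓝 (2 * 0)) := by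
      refine Tendsto.const_mul 2 ?_
      exact tendsto_pow_atTop_nhds_zero_of_lt_one (by norm_num) (by norm_num)
    rw [mul_zero] at h2
    obtain ⟨n, hn⟩ := (h2.eventually_lt_const hε).exists
    obtain ⟨y, hy⟩ := exists_mem_K (show 3 ≤ 2 * n + 3 by omega)
    have hz : r n * (1 + y) ∈ P n := ⟨y, hy, rfl⟩
    have hb := P_bounds hz
    have hp := r_pos n
    refine ⟨r n * (1 + y), ⟨hball ?_, Or.inr (mem_iUnion.2 ⟨n, hz⟩)⟩, by linarith⟩
    rw [Metric.mem_ball, Real.dist_eq, sub_zero, abs_of_pos (by linarith)]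
    linarith
  · obtain ⟨m, y, hy, rfl⟩ := mem_iUnion.1 hx
    obtain ⟨z, hz, hne, hlt⟩ := K_acc (by omega) hy (div_pos hε (r_pos m))
    refine ⟨r m * (1 + z), ⟨hball ?_, Or.inr (mem_iUnion.2 ⟨m, z, hz, rfl⟩)⟩, ?_⟩
    · rw [Metric.mem_ball, Real.dist_eq]
      have : r m * (1 + z) - r m * (1 + y) = r m * (z - y) := by ring
      rw [this, abs_mul, abs_of_pos (r_pos m)]
      rwa [lt_div_iff₀ (r_pos m), mul_comm] at hlt
    · intro h
      apply hne
      have := mul_left_cancel₀ (r_pos m).ne' h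
      linarith

theorem patterns (F : Set ℝ) (hF : F.Finite) : ∃ a b : ℝ, b ≠ 0 ∧ ∀ x ∈ F, a + b * x ∈ E := by
  classical
  lift F to Finset ℝ using hF
  obtain ⟨M, hM0, hM⟩ : ∃ M : ℝ, 0 < M ∧ ∀ x ∈ F, |x| < M := by
    obtain ⟨M, hM⟩ := (F.finite_toSet.image (fun x => |x|)).bddAbove
    refine ⟨max M 0 + 1, by positivity, fun x hx => ?_⟩
    have := hM (mem_image_of_mem (fun x => |x|) hx)
    have := le_max_left M 0
    linarith
  let m := F.card
  let B := 2 * m + 3
  have hB : (0 : ℝ) < B := by positivity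
  let c : ℝ := (B : ℝ)⁻¹ / (2 * M)
  have hc : 0 < c := by positivity
  let f : ℝ → ℝ := fun x => c * (x + M)
  have hcard : (F.image f).card ≤ m := Finset.card_image_le
  obtain ⟨a, ha⟩ := pattern (B := B) (F.image f) (by
    intro t ht
    obtain ⟨x, hx, rfl⟩ := Finset.mem_image.1 ht
    have h1 := abs_lt.1 (hM x hx)
    have h2 : 0 < x + M := by linarith
    refine ⟨(mul_pos hc h2).le, ?_⟩
    have h3 : c * (2 * M) = (B : ℝ)⁻¹ := by simp only [c]; field_simp
    calc c * (x + M) < c * (2 * M) := by gcongr; linarith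
      _ = _ := h3) (by omega)
  refine ⟨r m * (1 + a + c * M), r m * c, (mul_pos (r_pos m) hc).ne', fun x hx => ?_⟩
  refine Or.inr (mem_iUnion.2 ⟨m, a + f x, ha _ (Finset.mem_image_of_mem f hx), ?_⟩)
  simp only [f]
  ring

/-! ### No Rajchman measures -/

open Complex in
/-- The Fourier transform of `g μ` tends to zero if that of `μ` does, for `g` continuous and
periodic. -/
theorem decay_mul {μ : Measure ℝ} [IsFiniteMeasure μ] {T : ℝ} [Fact (0 < T)]
    (hμ : Tendsto (fun ξ : ℝ => ∫ x, Complex.exp (-(2 * π * x * ξ : ℝ) * I) ∂μ)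
      (cocompact ℝ) (𝓝 0)) (g : C(AddCircle T, ℂ)) :
    Tendsto (fun ξ : ℝ => ∫ x : ℝ, g (x : AddCircle T) * Complex.exp (-(2 * π * x * ξ : ℝ) * I) ∂μ)
      (cocompact ℝ) (𝓝 0) := by
  have hint : ∀ (h : C(AddCircle T, ℂ)) (ξ : ℝ), Integrable
      (fun x : ℝ => h (x : AddCircle T) * Complex.exp (-(2 * π * x * ξ : ℝ) * I)) μ := by
    intro h ξ
    refine Integrable.mono' (integrable_const ‖h‖) ?_ (ae_of_all _ fun x => ?_)
    · refine Continuous.aestronglyMeasurable ?_
      have : Continuous fun x : ℝ => (x : AddCircle T) := AddCircle.continuous_mk' T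
      fun_prop
    · rw [norm_mul, ← ofReal_neg, Complex.norm_exp_ofReal_mul_I, mul_one]
      exact h.norm_coe_le_norm _
  let S : Submodule ℂ C(AddCircle T, ℂ) :=
    { carrier := {g | Tendsto (fun ξ : ℝ => ∫ x : ℝ, g (x : AddCircle T) *
        Complex.exp (-(2 * π * x * ξ : ℝ) * I) ∂μ) (cocompact ℝ) (𝓝 0)}
      add_mem' := by
        intro a b ha hb
        have := ha.add hb
        rw [add_zero] at this
        refine this.congr fun ξ => ?_
        rw [← integral_add (hint a ξ) (hint b ξ)]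
        refine integral_congr_ae (ae_of_all _ fun x => ?_)
        simp [add_mul]
      zero_mem' := by simp
      smul_mem' := by
        intro c a ha
        have := ha.const_mul c
        rw [mul_zero] at this
        refine this.congr fun ξ => ?_
        rw [← integral_const_mul]
        refine integral_congr_ae (ae_of_all _ fun x => ?_)
        simp [mul_assoc] }
  have hS : IsClosed (S : Set C(AddCircle T, ℂ)) := by
    refine isClosed_of_closure_subset fun g hg => ?_
    change Tendsto _ _ _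
    rw [Metric.tendsto_nhds]
    intro ε hε
    let A : ℝ := μ.real univ
    have hA : 0 ≤ A := measureReal_nonneg
    have hδ : 0 < ε / (2 * (A + 1)) := by positivity
    obtain ⟨h, hh, hgh⟩ := Metric.mem_closure_iff.1 hg _ hδ
    have hh' : Tendsto (fun ξ : ℝ => ∫ x : ℝ, h (x : AddCircle T) *
        Complex.exp (-(2 * π * x * ξ : ℝ) * I) ∂μ) (cocompact ℝ) (𝓝 0) := hh
    rw [Metric.tendsto_nhds] at hh'
    filter_upwards [hh' (ε / 2) (by positivity)] with ξ hξ
    rw [dist_zero_right] at hξ ⊢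
    have h1 : ‖(∫ x : ℝ, g (x : AddCircle T) * Complex.exp (-(2 * π * x * ξ : ℝ) * I) ∂μ) -
        ∫ x : ℝ, h (x : AddCircle T) * Complex.exp (-(2 * π * x * ξ : ℝ) * I) ∂μ‖ ≤
        ε / (2 * (A + 1)) * A := by
      rw [← integral_sub (hint g ξ) (hint h ξ)]
      refine norm_integral_le_of_norm_le_const (ae_of_all _ fun x => ?_)
      rw [← sub_mul, norm_mul, ← ofReal_neg, Complex.norm_exp_ofReal_mul_I, mul_one]
      have := (g - h).norm_coe_le_norm (x : AddCircle T)
      rw [dist_eq_norm] at hgh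
      exact this.trans hgh.le
    have h2 : ε / (2 * (A + 1)) * A ≤ ε / 2 := by
      rw [div_mul_eq_mul_div, div_le_div_iff₀ (by positivity) (by positivity)]
      nlinarith
    calc _ ≤ ‖(∫ x : ℝ, g (x : AddCircle T) * Complex.exp (-(2 * π * x * ξ : ℝ) * I) ∂μ) -
        ∫ x : ℝ, h (x : AddCircle T) * Complex.exp (-(2 * π * x * ξ : ℝ) * I) ∂μ‖ +
        ‖∫ x : ℝ, h (x : AddCircle T) * Complex.exp (-(2 * π * x * ξ : ℝ) * I) ∂μ‖ := by
          simpa using norm_add_le ((∫ x : ℝ, g (x : AddCircle T) *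
            Complex.exp (-(2 * π * x * ξ : ℝ) * I) ∂μ) - ∫ x : ℝ, h (x : AddCircle T) *
            Complex.exp (-(2 * π * x * ξ : ℝ) * I) ∂μ) (∫ x : ℝ, h (x : AddCircle T) *
            Complex.exp (-(2 * π * x * ξ : ℝ) * I) ∂μ)
      _ < ε := by linarith
  have hT : T ≠ 0 := (Fact.out : 0 < T).ne'
  have hspan : Submodule.span ℂ (range (fourier (T := T))) ≤ S := by
    rw [Submodule.span_le]
    rintro _ ⟨n, rfl⟩
    change Tendsto _ _ _
    have h1 : Tendsto (fun ξ : ℝ => ξ + (-(n / T))) (cocompact ℝ) (cocompact ℝ) :=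
      (Homeomorph.addRight (-(n / T) : ℝ)).isClosedEmbedding.tendsto_cocompact
    refine (hμ.comp h1).congr fun ξ => ?_
    simp only [Function.comp]
    refine integral_congr_ae (ae_of_all _ fun x => ?_)
    simp only [fourier_coe_apply]
    rw [← Complex.exp_add]
    congr 1
    push_cast
    field_simp
    ring
  have htop := Submodule.topologicalClosure_minimal _ hspan hS
  rw [span_fourier_closure_eq_top] at htop
  exact htop (Submodule.mem_top (x := g))

open Complex in
/-- Averages of `f (N_j (x - s))` against `g μ`. -/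
theorem average {μ : Measure ℝ} [IsFiniteMeasure μ] {T : ℝ} [Fact (0 < T)]
    (hμ : Tendsto (fun ξ : ℝ => ∫ x, Complex.exp (-(2 * π * x * ξ : ℝ) * I) ∂μ)
      (cocompact ℝ) (𝓝 0)) (g : C(AddCircle T, ℂ)) (f : C(AddCircle (1 : ℝ), ℂ)) (s : ℝ)
    (N : ℕ → ℝ) (hN : Tendsto N atTop atTop) :
    Tendsto (fun j => ∫ x : ℝ, g (x : AddCircle T) * f ((N j * (x - s) : ℝ) : AddCircle (1 : ℝ)) ∂μ)
      atTop (𝓝 ((∫ x : ℝ, g (x : AddCircle T) ∂μ) * fourierCoeff f 0)) := by
  have hint : ∀ (h : C(AddCircle (1 : ℝ), ℂ)) (j : ℕ), Integrable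
      (fun x : ℝ => g (x : AddCircle T) * h ((N j * (x - s) : ℝ) : AddCircle (1 : ℝ))) μ := by
    intro h j
    refine Integrable.mono' (integrable_const (‖g‖ * ‖h‖)) ?_ (ae_of_all _ fun x => ?_)
    · refine Continuous.aestronglyMeasurable ?_
      have h1 : Continuous fun x : ℝ => (x : AddCircle T) := AddCircle.continuous_mk' T
      have h2 : Continuous fun x : ℝ => (x : AddCircle (1 : ℝ)) := AddCircle.continuous_mk' 1
      have h3 : Continuous fun x : ℝ => ((N j * (x - s) : ℝ) : AddCircle (1 : ℝ)) :=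
        h2.comp (by fun_prop)
      exact (g.continuous.comp h1).mul (h.continuous.comp h3)
    · rw [norm_mul]
      gcongr
      · exact g.norm_coe_le_norm _
      · exact h.norm_coe_le_norm _
  have hcoeff : ∀ h : C(AddCircle (1 : ℝ), ℂ), fourierCoeff h 0 = ∫ x, h x ∂AddCircle.haarAddCircle := by
    intro h
    simp [fourierCoeff]
  have hhaar : ∀ h : C(AddCircle (1 : ℝ), ℂ), Integrable h AddCircle.haarAddCircle := fun h =>
    h.continuous.integrable_of_hasCompactSupport (HasCompactSupport.of_compactSpace h)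
  let S : Submodule ℂ C(AddCircle (1 : ℝ), ℂ) :=
    { carrier := {f | Tendsto (fun j => ∫ x : ℝ, g (x : AddCircle T) *
        f ((N j * (x - s) : ℝ) : AddCircle (1 : ℝ)) ∂μ)
        atTop (𝓝 ((∫ x : ℝ, g (x : AddCircle T) ∂μ) * fourierCoeff f 0))}
      add_mem' := by
        intro a b ha hb
        have h0 : fourierCoeff (⇑(a + b)) 0 = fourierCoeff a 0 + fourierCoeff b 0 := by
          rw [hcoeff, hcoeff, hcoeff, ← integral_add (hhaar a) (hhaar b)]
          rfl
        have := ha.add hb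
        rw [← mul_add, ← h0] at this
        refine this.congr fun j => ?_
        rw [← integral_add (hint a j) (hint b j)]
        refine integral_congr_ae (ae_of_all _ fun x => ?_)
        simp [mul_add]
      zero_mem' := by simp [hcoeff]
      smul_mem' := by
        intro c a ha
        have h0 : fourierCoeff (⇑(c • a)) 0 = c * fourierCoeff a 0 := by
          rw [hcoeff, hcoeff, ← integral_const_mul]
          rfl
        have := ha.const_mul c
        rw [mul_left_comm, ← h0] at this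
        refine this.congr fun j => ?_
        rw [← integral_const_mul]
        refine integral_congr_ae (ae_of_all _ fun x => ?_)
        simp [mul_left_comm] }
  have hS : IsClosed (S : Set C(AddCircle (1 : ℝ), ℂ)) := by
    refine isClosed_of_closure_subset fun f hf => ?_
    change Tendsto _ _ _
    rw [Metric.tendsto_nhds]
    intro ε hε
    let A : ℝ := ‖g‖ * μ.real univ
    have hA : 0 ≤ A := by positivity
    have hδ : 0 < ε / (3 * (A + 1)) := by positivity
    obtain ⟨h, hh, hgh⟩ := Metric.mem_closure_iff.1 hf _ hδ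
    have hh' : Tendsto (fun j => ∫ x : ℝ, g (x : AddCircle T) *
        h ((N j * (x - s) : ℝ) : AddCircle (1 : ℝ)) ∂μ)
        atTop (𝓝 ((∫ x : ℝ, g (x : AddCircle T) ∂μ) * fourierCoeff h 0)) := hh
    rw [Metric.tendsto_nhds] at hh'
    rw [dist_eq_norm] at hgh
    have h2 : ε / (3 * (A + 1)) * A ≤ ε / 3 := by
      rw [div_mul_eq_mul_div, div_le_div_iff₀ (by positivity) (by positivity)]
      nlinarith
    have hfh : ∀ y, ‖f y - h y‖ ≤ ε / (3 * (A + 1)) := fun y =>
      ((f - h).norm_coe_le_norm y).trans hgh.le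
    have h3 : ‖(∫ x : ℝ, g (x : AddCircle T) ∂μ) * fourierCoeff h 0 -
        (∫ x : ℝ, g (x : AddCircle T) ∂μ) * fourierCoeff f 0‖ ≤ ε / 3 := by
      rw [← mul_sub, norm_mul, hcoeff, hcoeff, ← integral_sub (hhaar h) (hhaar f)]
      have h4 : ‖∫ x : ℝ, g (x : AddCircle T) ∂μ‖ ≤ A :=
        norm_integral_le_of_norm_le_const (ae_of_all _ fun x => g.norm_coe_le_norm _)
      have h5 : ‖∫ x, (h x - f x) ∂AddCircle.haarAddCircle (T := 1)‖ ≤ ε / (3 * (A + 1)) := by
        have := norm_integral_le_of_norm_le_const (μ := AddCircle.haarAddCircle (T := 1))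
          (f := fun x => h x - f x) (C := ε / (3 * (A + 1)))
          (ae_of_all _ fun y => by rw [norm_sub_rev]; exact hfh y)
        simpa using this
      calc _ ≤ A * (ε / (3 * (A + 1))) := by gcongr
        _ ≤ ε / 3 := by rw [mul_comm]; exact h2
    filter_upwards [hh' (ε / 3) (by positivity)] with j hj
    rw [dist_eq_norm] at hj ⊢
    have h1 : ‖(∫ x : ℝ, g (x : AddCircle T) * f ((N j * (x - s) : ℝ) : AddCircle (1 : ℝ)) ∂μ) -
        ∫ x : ℝ, g (x : AddCircle T) * h ((N j * (x - s) : ℝ) : AddCircle (1 : ℝ)) ∂μ‖ ≤ ε / 3 := by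
      rw [← integral_sub (hint f j) (hint h j)]
      refine (norm_integral_le_of_norm_le_const (C := ‖g‖ * (ε / (3 * (A + 1))))
        (ae_of_all _ fun x => ?_)).trans ?_
      · rw [← mul_sub, norm_mul]
        gcongr
        · exact g.norm_coe_le_norm _
        · exact hfh _
      · refine le_trans (le_of_eq ?_) h2
        simp only [A]
        ring
    set a := ∫ x : ℝ, g (x : AddCircle T) * f ((N j * (x - s) : ℝ) : AddCircle (1 : ℝ)) ∂μ
    set b := ∫ x : ℝ, g (x : AddCircle T) * h ((N j * (x - s) : ℝ) : AddCircle (1 : ℝ)) ∂μ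
    set c := (∫ x : ℝ, g (x : AddCircle T) ∂μ) * fourierCoeff h 0
    set d := (∫ x : ℝ, g (x : AddCircle T) ∂μ) * fourierCoeff f 0
    have h6 : a - d = (a - b) + (b - c) + (c - d) := by ring
    calc ‖a - d‖ ≤ ‖a - b‖ + ‖b - c‖ + ‖c - d‖ := by
          rw [h6]; exact norm_add₃_le
      _ < ε := by linarith
  have hspan : Submodule.span ℂ (range (fourier (T := 1))) ≤ S := by
    rw [Submodule.span_le]
    rintro _ ⟨n, rfl⟩
    change Tendsto _ _ _
    by_cases hn : n = 0
    · subst hn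
      have h0 : fourierCoeff (⇑(fourier (T := 1) 0)) 0 = 1 := by
        rw [fourierCoeff_fourier]; simp
      rw [h0, mul_one]
      refine tendsto_const_nhds.congr fun j => ?_
      refine integral_congr_ae (ae_of_all _ fun x => ?_)
      simp
    · have h0 : fourierCoeff (⇑(fourier (T := 1) n)) 0 = 0 := by
        rw [fourierCoeff_fourier]; simp [Ne.symm hn]
      rw [h0, mul_zero]
      have hn' : (n : ℝ) ≠ 0 := by exact_mod_cast hn
      have h1 : Tendsto (fun j => -(n : ℝ) * N j) atTop (cocompact ℝ) := by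
        have h2 : Tendsto (fun y : ℝ => -(n : ℝ) * y) (cocompact ℝ) (cocompact ℝ) :=
          (Homeomorph.mulLeft₀ (-(n : ℝ)) (neg_ne_zero.2 hn')).isClosedEmbedding.tendsto_cocompact
        exact h2.comp (hN.mono_right atTop_le_cocompact)
      have h3 := (decay_mul hμ g).comp h1
      rw [tendsto_zero_iff_norm_tendsto_zero] at h3 ⊢
      refine h3.congr fun j => ?_
      simp only [Function.comp]
      have h4 : ∀ x : ℝ, g (x : AddCircle T) * fourier n ((N j * (x - s) : ℝ) : AddCircle (1 : ℝ)) =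
          Complex.exp ((-(2 * π * n * N j * s) : ℝ) * I) * (g (x : AddCircle T) *
            Complex.exp (-(2 * π * x * (-(n : ℝ) * N j) : ℝ) * I)) := by
        intro x
        rw [fourier_coe_apply, mul_left_comm, ← Complex.exp_add]
        congr 2
        push_cast
        ring
      simp_rw [h4]
      rw [integral_const_mul, norm_mul, Complex.norm_exp_ofReal_mul_I, one_mul]
  have htop := Submodule.topologicalClosure_minimal _ hspan hS
  rw [span_fourier_closure_eq_top] at htop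
  exact htop (Submodule.mem_top (x := f))

theorem exists_bump {T : ℝ} [Fact (0 < T)] {A C : Set (AddCircle T)} (hA : IsClosed A)
    (hC : IsClosed C) (hAC : Disjoint A C) : ∃ f : C(AddCircle T, ℝ), (∀ x ∈ A, f x = 0) ∧
      (∀ x ∈ C, f x = 1) ∧ ∀ x, 0 ≤ f x := by
  obtain ⟨f, h0, h1, h2⟩ := exists_continuous_zero_one_of_isClosed hA hC hAC
  exact ⟨f, fun x hx => h0 hx, fun x hx => h1 hx, fun x => (h2 x).1⟩

/-- The complex version of a real continuous function. -/
noncomputable def cx {T : ℝ} (f : C(AddCircle T, ℝ)) : C(AddCircle T, ℂ) :=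
  ⟨fun x => (f x : ℂ), by fun_prop⟩

/-- The pieces have measure zero. -/
theorem piece_null {μ : Measure ℝ} [IsFiniteMeasure μ] (hE : μ Eᶜ = 0)
    (hμ : Tendsto (fun ξ : ℝ => ∫ x, Complex.exp (-(2 * π * x * ξ : ℝ) * Complex.I) ∂μ)
      (cocompact ℝ) (𝓝 0)) (m : ℕ) : μ (P m) = 0 := by
  have : Fact ((0 : ℝ) < 4) := ⟨by norm_num⟩
  have hr := r_pos m
  have hr1 : r m ≤ 1 := by
    have := r_anti (Nat.zero_le m)
    simpa [r] using this
  let q : ℝ → AddCircle (4 : ℝ) := fun x => (x : AddCircle (4 : ℝ))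
  have hq : Continuous q := AddCircle.continuous_mk' 4
  let R : Set ℝ := E ∩ (Iic (r m / 2) ∪ Ici (4 * r m))
  have hR : IsCompact R := isCompact_E.inter_right (isClosed_Iic.union isClosed_Ici)
  have hEr : ∀ x ∈ E, 0 ≤ x ∧ x ≤ 2 := by
    rintro x (rfl | hx)
    · simp
    · obtain ⟨n, hn⟩ := mem_iUnion.1 hx
      have h1 := P_bounds hn
      have h2 := r_anti (Nat.zero_le n)
      have h3 : r 0 = 1 := by simp [r]
      exact ⟨(r_pos n).le.trans h1.1, by linarith⟩
  have hsplit : ∀ x ∈ E, x ∈ P m ∨ x ∈ R := by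
    intro x hx
    have hx' := hx
    rcases hx with rfl | hx
    · exact Or.inr ⟨hx', Or.inl (by simp only [mem_Iic]; linarith)⟩
    · obtain ⟨n, hn⟩ := mem_iUnion.1 hx
      rcases lt_trichotomy n m with h | h | h
      · have h1 := P_bounds hn
        have h2 := r_succ h
        exact Or.inr ⟨hx', Or.inr (by simp only [mem_Ici]; linarith)⟩
      · subst h; exact Or.inl hn
      · have h1 := P_bounds hn
        have h2 := r_succ h
        exact Or.inr ⟨hx', Or.inl (by simp only [mem_Iic]; linarith)⟩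
  have hdisj : Disjoint (q '' R) (q '' P m) := by
    rw [Set.disjoint_left]
    rintro _ ⟨x, hx, rfl⟩ ⟨y, hy, hxy⟩
    have h1 := hEr x hx.1
    have h2 := P_bounds hy
    have h3 : y = x := (AddCircle.coe_eq_coe_iff_of_mem_Ico (p := (4 : ℝ)) (a := 0)
      ⟨by linarith, by linarith⟩ ⟨by linarith, by linarith⟩).1 hxy
    subst h3
    rcases hx.2 with h | h
    · simp only [mem_Iic] at h; linarith
    · simp only [mem_Ici] at h; linarith
  obtain ⟨g, hg0, hg1, hgn⟩ := exists_bump (hR.image hq).isClosed ((isCompact_P m).image hq).isClosed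
    hdisj
  let B : ℕ := 2 * m + 3
  have hB : 0 < B := by omega
  have hBr : (1 : ℝ) < B := by exact_mod_cast (by omega : 1 < B)
  have hBi : 0 < (B : ℝ)⁻¹ := by positivity
  have hBi1 : (B : ℝ)⁻¹ < 1 := inv_lt_one_of_one_lt₀ hBr
  let q1 : ℝ → AddCircle (1 : ℝ) := fun x => (x : AddCircle (1 : ℝ))
  have hq1 : Continuous q1 := AddCircle.continuous_mk' 1
  have hdisj1 : Disjoint (q1 '' Icc (B : ℝ)⁻¹ 1) {q1 ((B : ℝ)⁻¹ / 2)} := by
    rw [Set.disjoint_singleton_right]
    rintro ⟨x, hx, hxy⟩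
    have h3 : x = (B : ℝ)⁻¹ / 2 := (AddCircle.coe_eq_coe_iff_of_mem_Ico (p := (1 : ℝ))
      (a := (B : ℝ)⁻¹ / 2) ⟨by linarith [hx.1], by linarith [hx.2]⟩ ⟨by linarith, by linarith⟩).1 hxy
    linarith [hx.1]
  obtain ⟨f, hf0, hf1, hfn⟩ := exists_bump (isCompact_Icc.image hq1).isClosed isClosed_singleton
    hdisj1
  have hav := average hμ (cx g) (cx f) (r m) (fun j => (B : ℝ) ^ j / r m)
    ((tendsto_pow_atTop_atTop_of_one_lt hBr).atTop_div_const hr)
  have hzero : ∀ j : ℕ, ∫ x : ℝ, (cx g) (x : AddCircle (4 : ℝ)) *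
      (cx f) (((B : ℝ) ^ j / r m * (x - r m) : ℝ) : AddCircle (1 : ℝ)) ∂μ = 0 := by
    intro j
    refine integral_eq_zero_of_ae ?_
    have hae : ∀ᵐ x ∂μ, x ∈ E := by
      rw [ae_iff]; exact hE
    filter_upwards [hae] with x hx
    rcases hsplit x hx with h | h
    · obtain ⟨y, hy, rfl⟩ := h
      obtain ⟨k, z, hz, hk⟩ := K_arc hB hy j
      have h1 : (B : ℝ) ^ j / r m * (r m * (1 + y) - r m) = k + z := by
        rw [← hk]; field_simp; ring
      have h2 : (((k : ℝ) + z : ℝ) : AddCircle (1 : ℝ)) = q1 z := by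
        have : ((k : ℝ) : AddCircle (1 : ℝ)) = 0 := by
          have := AddCircle.coe_period (1 : ℝ)
          have h5 : ((k : ℝ) : AddCircle (1 : ℝ)) = k • ((1 : ℝ) : AddCircle (1 : ℝ)) := by
            rw [← AddCircle.coe_nsmul]; simp
          rw [h5, this, smul_zero]
        rw [AddCircle.coe_add, this, zero_add]
      have h3 : f (q1 z) = 0 := hf0 _ (mem_image_of_mem q1 hz)
      simp only [Pi.zero_apply]
      rw [h1, h2]
      simp [cx, h3]
    · have h3 : g (q x) = 0 := hg0 _ (mem_image_of_mem q h)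
      have h4 : g (x : AddCircle (4 : ℝ)) = 0 := h3
      simp [cx, h4]
  simp only [hzero] at hav
  have hlim := tendsto_nhds_unique hav tendsto_const_nhds
  have hc : fourierCoeff (cx f) 0 ≠ 0 := by
    have h1 : fourierCoeff (cx f) 0 = ((∫ x, f x ∂AddCircle.haarAddCircle (T := 1) : ℝ) : ℂ) := by
      simp only [fourierCoeff, neg_zero, cx]
      rw [← integral_complex_ofReal]
      simp
    rw [h1, Complex.ofReal_ne_zero]
    refine ne_of_gt ?_
    refine f.continuous.integral_pos_of_hasCompactSupport_nonneg_nonzero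
      (HasCompactSupport.of_compactSpace f) hfn (x := q1 ((B : ℝ)⁻¹ / 2)) ?_
    rw [hf1 _ rfl]
    exact one_ne_zero
  have hint : ∫ x : ℝ, (cx g) (x : AddCircle (4 : ℝ)) ∂μ = 0 := by
    rcases mul_eq_zero.1 hlim with h | h
    · exact h
    · exact absurd h hc
  have hint2 : ∫ x : ℝ, g (x : AddCircle (4 : ℝ)) ∂μ = 0 := by
    have : ∫ x : ℝ, (cx g) (x : AddCircle (4 : ℝ)) ∂μ = ((∫ x : ℝ, g (x : AddCircle (4 : ℝ)) ∂μ : ℝ) : ℂ) := by
      rw [← integral_complex_ofReal]; rfl
    rw [this] at hint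
    exact_mod_cast hint
  have hgi : Integrable (fun x : ℝ => g (x : AddCircle (4 : ℝ))) μ := by
    refine Integrable.mono' (integrable_const ‖g‖) ?_ (ae_of_all _ fun x => g.norm_coe_le_norm _)
    exact (g.continuous.comp hq).aestronglyMeasurable
  rw [integral_eq_zero_iff_of_nonneg (fun x => hgn _) hgi] at hint2
  have hnull : μ {x : ℝ | ¬ g (x : AddCircle (4 : ℝ)) = 0} = 0 := ae_iff.1 hint2
  refine measure_mono_null (fun x hx => ?_) hnull
  have : g (q x) = 1 := hg1 _ (mem_image_of_mem q hx)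
  have h4 : g (x : AddCircle (4 : ℝ)) = 1 := this
  simp [h4]

/-- No nonzero finite measure supported on `E` has a Fourier transform that tends to zero. -/
theorem no_rajchman {μ : Measure ℝ} [IsFiniteMeasure μ] (hE : μ Eᶜ = 0)
    (hμ : Tendsto (fun ξ : ℝ => ∫ x, Complex.exp (-(2 * π * x * ξ : ℝ) * Complex.I) ∂μ)
      (cocompact ℝ) (𝓝 0)) : μ = 0 := by
  have h1 : μ (⋃ m, P m) = 0 := measure_iUnion_null fun m => piece_null hE hμ m
  have h2 : μ {0}ᶜ = 0 := by
    refine measure_mono_null (t := Eᶜ ∪ ⋃ m, P m) ?_ (measure_union_null hE h1)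
    intro x hx
    by_cases h : x ∈ E
    · rcases h with h | h
      · exact absurd h hx
      · exact Or.inr h
    · exact Or.inl h
  have hae : ∀ᵐ x ∂μ, x = 0 := by rw [ae_iff]; exact h2
  have h3 : ∀ ξ : ℝ, ∫ x, Complex.exp (-(2 * π * x * ξ : ℝ) * Complex.I) ∂μ = (μ.real univ : ℂ) := by
    intro ξ
    have : ∫ x, Complex.exp (-(2 * π * x * ξ : ℝ) * Complex.I) ∂μ = ∫ x, (1 : ℂ) ∂μ := by
      refine integral_congr_ae ?_
      filter_upwards [hae] with x hx
      simp [hx]
    rw [this]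
    simp
  simp only [h3] at hμ
  have h4 : (μ.real univ : ℂ) = 0 := tendsto_nhds_unique tendsto_const_nhds hμ
  have h5 : μ.real univ = 0 := by exact_mod_cast h4
  rwa [measureReal_eq_zero_iff, Measure.measure_univ_eq_zero] at h5

/-- There is a compact perfect set of real numbers that contains an affine copy of every finite set
of real numbers, such that no nonzero finite Borel measure supported on it has a Fourier transform
tending to zero at infinity. -/
theorem result : ∃ E : Set ℝ, IsCompact E ∧ Perfect E ∧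
    (∀ F : Set ℝ, F.Finite → ∃ a b : ℝ, b ≠ 0 ∧ ∀ x ∈ F, a + b * x ∈ E) ∧
    ∀ μ : Measure ℝ, IsFiniteMeasure μ → μ Eᶜ = 0 →
      Tendsto (fun ξ : ℝ => ∫ x, Complex.exp (-(2 * π * x * ξ : ℝ) * Complex.I) ∂μ)
        (cocompact ℝ) (𝓝 0) → μ = 0 :=
  ⟨E, isCompact_E, perfect_E, patterns, fun _ _ hE hμ => no_rajchman hE hμ⟩

end Pool.Agent.Results.MP_701998_an.NoRajchman
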